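import Mathlib

set_option autoImplicit false

namespace Pool.Agent.H763_lmd

open Finset Function

variable {V : Type*} [DecidableEq V] {k : ℕ}

/-- Every monochromatic edge is distinguished by a vertex of another colour. -/
def Good (G : SimpleGraph V) (c : V → Fin k) : Prop :=
  ∀ a b, G.Adj a b → c a = c b → ∃ w, c w ≠ c a ∧ ¬ (G.Adj w a ↔ G.Adj w b)

/-- The same, for the graph with `v` removed. -/
def GoodOff (G : SimpleGraph V) (v : V) (c : V → Fin k) : Prop :=
  ∀ a b, a ≠ v → b ≠ v → G.Adj a b → c a = c b →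
    ∃ w, w ≠ v ∧ c w ≠ c a ∧ ¬ (G.Adj w a ↔ G.Adj w b)

/-- `x` is a neighbour of the hole `v` of colour `j` not distinguished from `v` by other colours. -/
def XX (G : SimpleGraph V) (v : V) (c : V → Fin k) (j : Fin k) (x : V) : Prop :=
  G.Adj v x ∧ c x = j ∧ ∀ w, w ≠ v → c w ≠ j → (G.Adj w v ↔ G.Adj w x)

variable {G : SimpleGraph V} {v x y : V} {c : V → Fin k} {j l : Fin k}

theorem exists_XX (hG : ∀ c' : V → Fin k, ¬ Good G c') (h : GoodOff G v c) (j : Fin k) :
    ∃ x, XX G v c j x := by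
  by_contra hne
  apply hG (update c v j)
  have key : ∀ b, G.Adj v b → update c v j b = j →
      ∃ w, update c v j w ≠ j ∧ ¬ (G.Adj w v ↔ G.Adj w b) := by
    intro b hvb hb
    have hbv : b ≠ v := hvb.ne'
    rw [update_of_ne hbv] at hb
    by_contra hcon
    apply hne
    refine ⟨b, hvb, hb, ?_⟩
    intro w hwv hcw
    by_contra hw
    exact hcon ⟨w, by rwa [update_of_ne hwv], hw⟩
  intro a b hab hc
  by_cases hav : a = v
  · subst hav
    rw [update_self] at hc ⊢
    exact key b hab hc.symm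
  · by_cases hbv : b = v
    · subst hbv
      rw [update_self] at hc
      obtain ⟨w, hw1, hw2⟩ := key a hab.symm hc
      refine ⟨w, by rwa [hc], ?_⟩
      intro hiff
      exact hw2 hiff.symm
    · rw [update_of_ne hav, update_of_ne hbv] at hc
      obtain ⟨w, hwv, hw1, hw2⟩ := h a b hav hbv hab hc
      exact ⟨w, by rwa [update_of_ne hwv, update_of_ne hav], hw2⟩

theorem XX.adj (hx : XX G v c j x) : G.Adj v x := hx.1

theorem XX.col (hx : XX G v c j x) : c x = j := hx.2.1

theorem XX.adj_of (hx : XX G v c j x) (hy : G.Adj v y) (hc : c y ≠ j) : G.Adj y x :=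
  (hx.2.2 y hy.ne' hc).1 hy.symm

theorem XX.not_adj (h : GoodOff G v c) (hx : XX G v c j x) (hy : XX G v c j y) :
    ¬ G.Adj x y := by
  intro hxy
  obtain ⟨w, hwv, hw1, hw2⟩ := h x y hx.1.ne' hy.1.ne' hxy (hx.2.1.trans hy.2.1.symm)
  rw [hx.2.1] at hw1
  exact hw2 ((hx.2.2 w hwv hw1).symm.trans (hy.2.2 w hwv hw1))

/-- Option A. -/
theorem optionA (hG : ∀ c' : V → Fin k, ¬ Good G c') (h : GoodOff G v c)
    (hx : XX G v c j x) (hl : l ≠ j) :
    ∃ b, G.Adj x b ∧ G.Adj v b ∧ c b = l ∧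
      ∀ w, w ≠ x → w ≠ v → c w ≠ l → (G.Adj w x ↔ G.Adj w b) := by
  by_contra hne
  have hvx : v ≠ x := hx.1.ne
  set c' : V → Fin k := update (update c v j) x l with hc'
  have c'x : c' x = l := by simp [hc']
  have c'v : c' v = j := by rw [hc', update_of_ne hvx, update_self]
  have c'o : ∀ w, w ≠ x → w ≠ v → c' w = c w := by
    intro w h1 h2
    rw [hc', update_of_ne h1, update_of_ne h2]
  -- the pairs containing `x`
  have keyx : ∀ b, G.Adj x b → c' b = l → ∃ w, c' w ≠ l ∧ ¬ (G.Adj w x ↔ G.Adj w b) := by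
    intro b hxb hb
    have hbx : b ≠ x := hxb.ne'
    have hbv : b ≠ v := by
      rintro rfl
      rw [c'v] at hb
      exact hl hb.symm
    rw [c'o b hbx hbv] at hb
    have hvb : G.Adj v b := by
      have := (hx.2.2 b hbv (by rw [hb]; exact hl)).2 hxb.symm
      exact this.symm
    by_contra hcon
    apply hne
    refine ⟨b, hxb, hvb, hb, ?_⟩
    intro w hwx hwv hcw
    by_contra hw
    exact hcon ⟨w, by rwa [c'o w hwx hwv], hw⟩
  -- the pairs containing `v`
  have keyv : ∀ b, G.Adj v b → c' b = j → ∃ w, c' w ≠ j ∧ ¬ (G.Adj w v ↔ G.Adj w b) := by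
    intro b hvb hb
    have hbv : b ≠ v := hvb.ne'
    have hbx : b ≠ x := by
      rintro rfl
      rw [c'x] at hb
      exact hl hb
    rw [c'o b hbx hbv] at hb
    by_cases hX : XX G v c j b
    · refine ⟨x, by rwa [c'x], ?_⟩
      intro hiff
      exact XX.not_adj h hx hX (hiff.1 hx.1.symm)
    · have : ∃ w, w ≠ v ∧ c w ≠ j ∧ ¬ (G.Adj w v ↔ G.Adj w b) := by
        by_contra hcon
        apply hX
        refine ⟨hvb, hb, ?_⟩
        intro w hwv hcw
        by_contra hw
        exact hcon ⟨w, hwv, hcw, hw⟩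
      obtain ⟨w, hwv, hcw, hw⟩ := this
      have hwx : w ≠ x := by
        rintro rfl
        exact hcw hx.2.1
      exact ⟨w, by rwa [c'o w hwx hwv], hw⟩
  apply hG c'
  intro a b hab hc
  by_cases hax : a = x
  · subst hax
    rw [c'x] at hc ⊢
    exact keyx b hab hc.symm
  by_cases hbx : b = x
  · subst hbx
    rw [c'x] at hc
    obtain ⟨w, hw1, hw2⟩ := keyx a hab.symm hc
    exact ⟨w, by rwa [hc], fun hiff => hw2 hiff.symm⟩
  by_cases hav : a = v
  · subst hav
    rw [c'v] at hc ⊢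
    exact keyv b hab hc.symm
  by_cases hbv : b = v
  · subst hbv
    rw [c'v] at hc
    obtain ⟨w, hw1, hw2⟩ := keyv a hab.symm hc
    exact ⟨w, by rwa [hc], fun hiff => hw2 hiff.symm⟩
  rw [c'o a hax hav, c'o b hbx hbv] at hc
  rw [c'o a hax hav]
  obtain ⟨w, hwv, hw1, hw2⟩ := h a b hav hbv hab hc
  by_cases hwx : w = x
  · subst hwx
    -- `w = x`, `c x = j ≠ c a`; if `c a = l` use `v`, else use `x`.
    have haj : c a ≠ j := by
      intro h1
      exact hw1 (hx.2.1.trans h1.symm)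
    have hbj : c b ≠ j := by rwa [← hc]
    refine ⟨v, ?_, ?_⟩
    · rw [c'v]; exact haj.symm
    · intro hiff
      apply hw2
      have h1 := hx.2.2 a hav haj
      have h2 := hx.2.2 b hbv hbj
      rw [G.adj_comm w a, G.adj_comm w b, ← h1, ← h2, G.adj_comm a v, G.adj_comm b v]
      exact hiff
  · exact ⟨w, by rwa [c'o w hwx hwv], hw2⟩

/-- Uniqueness. -/
theorem XX.unique (hk : 2 ≤ k) (hG : ∀ c' : V → Fin k, ¬ Good G c') (h : GoodOff G v c)
    (hx : XX G v c j x) (hy : XX G v c j y) : x = y := by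
  by_contra hne
  obtain ⟨l, hl⟩ : ∃ l : Fin k, l ≠ j := by
    have : Nontrivial (Fin k) := Fin.nontrivial_iff_two_le.2 hk
    exact exists_ne j
  obtain ⟨b, hxb, hvb, hb, hw⟩ := optionA hG h hx hl
  have hby : G.Adj b y := hy.adj_of hvb (by rw [hb]; exact hl)
  have := hw y (Ne.symm hne) hy.1.ne' (by rw [hy.2.1]; exact hl.symm)
  exact XX.not_adj h hx hy (this.2 hby.symm).symm

/-- Moving the hole. -/
theorem GoodOff.move (hk : 2 ≤ k) (hG : ∀ c' : V → Fin k, ¬ Good G c') (h : GoodOff G v c)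
    (hx : XX G v c j x) : GoodOff G x (update c v j) := by
  have hvx : v ≠ x := hx.1.ne
  have keyv : ∀ b, b ≠ x → G.Adj v b → c b = j →
      ∃ w, w ≠ x ∧ update c v j w ≠ j ∧ ¬ (G.Adj w v ↔ G.Adj w b) := by
    intro b hbx hvb hb
    by_contra hcon
    apply hbx
    apply XX.unique hk hG h _ hx
    refine ⟨hvb, hb, ?_⟩
    intro w hwv hcw
    by_contra hw
    refine hcon ⟨w, ?_, by rwa [update_of_ne hwv], hw⟩
    rintro rfl
    exact hcw hx.2.1
  intro a b hax hbx hab hc
  by_cases hav : a = v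
  · subst hav
    rw [update_self, update_of_ne hab.ne'] at hc
    rw [update_self]
    exact keyv b hbx hab hc.symm
  by_cases hbv : b = v
  · subst hbv
    rw [update_self, update_of_ne hab.ne] at hc
    obtain ⟨w, h0, h1, h2⟩ := keyv a hax hab.symm hc
    refine ⟨w, h0, ?_, fun hiff => h2 hiff.symm⟩
    rw [update_of_ne hab.ne, hc]
    exact h1
  rw [update_of_ne hav, update_of_ne hbv] at hc
  rw [update_of_ne hav]
  obtain ⟨w, hwv, hw1, hw2⟩ := h a b hav hbv hab hc
  by_cases hwx : w = x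
  · subst hwx
    have haj : c a ≠ j := by
      intro h1
      exact hw1 (hx.2.1.trans h1.symm)
    have hbj : c b ≠ j := by rwa [← hc]
    refine ⟨v, hvx, ?_, ?_⟩
    · rw [update_self]; exact haj.symm
    · intro hiff
      apply hw2
      have h1 := hx.2.2 a hav haj
      have h2 := hx.2.2 b hbv hbj
      rw [G.adj_comm w a, G.adj_comm w b, ← h1, ← h2, G.adj_comm a v, G.adj_comm b v]
      exact hiff
  · exact ⟨w, hwx, by rwa [update_of_ne hwv], hw2⟩

theorem XX.move (hx : XX G v c j x) : XX G x (update c v j) j v := by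
  refine ⟨hx.1.symm, by simp, ?_⟩
  intro w hwx hcw
  have hwv : w ≠ v := by
    rintro rfl
    simp at hcw
  rw [update_of_ne hwv] at hcw
  exact (hx.2.2 w hwv hcw).symm

end Pool.Agent.H763_lmd
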