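import Pool.Agent.H763_lmd.Walk

set_option autoImplicit false
set_option linter.unusedSectionVars false

namespace Pool.Agent.H763_lmd

open Finset Function

/-- A colouring that works off a vertex can be repaired. -/
theorem extend {V : Type*} [DecidableEq V] [Finite V] {k : ℕ} (hk : 2 ≤ k) {G : SimpleGraph V}
    (hcf : G.CliqueFree (k + 2)) (hiso : NoIso G k) {v : V} {c : V → Fin k}
    (h : GoodOff G v c) : ∃ c' : V → Fin k, Good G c' := by
  by_contra hG
  push Not at hG
  rcases Nat.lt_or_ge 2 k with h3 | h2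
  · exact case_three h3 hG h hcf hiso
  · obtain rfl : k = 2 := le_antisymm h2 hk
    exact case_two hG hcf hiso h

/-- There is a vertex whose removal creates no isolated clique on `k + 1` vertices. -/
theorem exists_removable {V : Type*} [DecidableEq V] [Nonempty V] {k : ℕ} (hk : 2 ≤ k)
    {G : SimpleGraph V} (hcf : G.CliqueFree (k + 2)) (hiso : NoIso G k) :
    ∃ v : V, ∀ Q : Finset V, v ∉ Q → G.IsNClique (k + 1) Q →
      ∃ q ∈ Q, ∃ s, s ∉ Q ∧ s ≠ v ∧ G.Adj q s := by
  by_contra hcon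
  push Not at hcon
  obtain ⟨v⟩ := ‹Nonempty V›
  obtain ⟨Q, hvQ, hQ, hQi⟩ := hcon v
  obtain ⟨q1, hq1, s, hs, hq1s⟩ := hiso Q hQ
  have hsv : s = v := by
    by_contra hsv
    exact hQi q1 hq1 s hs hsv hq1s
  rw [hsv] at hq1s
  clear hs hsv s
  -- a clique meeting `Q`, avoiding `p ∈ Q`, is `Q ∪ {v} \ {p}`
  have meet : ∀ p ∈ Q, ∀ Q' : Finset V, p ∉ Q' → G.IsNClique (k + 1) Q' → (∃ q ∈ Q', q ∈ Q) →
      v ∈ Q' ∧ Q.erase p ⊆ Q' := by
    intro p hp Q' hpQ' hQ' hex
    obtain ⟨q, hqQ', hqQ⟩ := hex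
    have hsub : Q' ⊆ (insert v Q).erase p := by
      intro z hz
      rw [mem_erase]
      refine ⟨fun hzp => hpQ' (hzp ▸ hz), ?_⟩
      rw [mem_insert]
      by_contra hz'
      push Not at hz'
      have hqz : q ≠ z := by
        rintro rfl
        exact hz'.2 hqQ
      exact hQi q hqQ z hz'.2 hz'.1 (hQ'.isClique hqQ' hz hqz)
    have hcard : ((insert v Q).erase p).card = k + 1 := by
      rw [card_erase_of_mem (mem_insert_of_mem hp), card_insert_of_notMem hvQ, hQ.card_eq]
      rfl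
    have heq : Q' = (insert v Q).erase p := by
      apply eq_of_subset_of_card_le hsub
      rw [hcard, hQ'.card_eq]
    constructor
    · rw [heq, mem_erase]
      exact ⟨fun h => hvQ (h ▸ hp), mem_insert_self _ _⟩
    · rw [heq]
      exact erase_subset_erase _ (subset_insert _ _)
  by_cases hA : ∃ q2 ∈ Q, q2 ≠ q1 ∧ G.Adj q2 v
  · obtain ⟨q2, hq2, hq21, hq2v⟩ := hA
    obtain ⟨Q', hq1Q', hQ', hQ'i⟩ := hcon q1
    obtain ⟨q, hq, s, hs, hqs⟩ := hiso Q' hQ'
    have hs1 : s = q1 := by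
      by_contra hs1
      exact hQ'i q hq s hs hs1 hqs
    rw [hs1] at hqs
    by_cases hm : ∃ q ∈ Q', q ∈ Q
    · obtain ⟨hvQ', hsub⟩ := meet q1 hq1 Q' hq1Q' hQ' hm
      refine hcf (insert v Q) (hQ.insert ?_)
      intro b hb
      by_cases hb1 : b = q1
      · rw [hb1]; exact hq1s.symm
      · have hbv : b ≠ v := fun h => hvQ (h ▸ hb)
        exact (hQ'.isClique (hsub (mem_erase.2 ⟨hb1, hb⟩)) hvQ' hbv).symm
    · push Not at hm
      have hqv : q = v := by
        by_contra hqv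
        exact hQi q1 hq1 q (hm q hq) hqv hqs.symm
      rw [hqv] at hq
      exact hQ'i v hq q2 (fun h => hm q2 h hq2) hq21 hq2v.symm
  · push Not at hA
    obtain ⟨q2, hq2, hq21⟩ : ∃ q2 ∈ Q, q2 ≠ q1 := by
      have h1 : 1 < Q.card := by rw [hQ.card_eq]; omega
      exact exists_mem_ne h1 q1
    obtain ⟨Q', hq2Q', hQ', hQ'i⟩ := hcon q2
    obtain ⟨q, hq, s, hs, hqs⟩ := hiso Q' hQ'
    have hs1 : s = q2 := by
      by_contra hs1
      exact hQ'i q hq s hs hs1 hqs
    rw [hs1] at hqs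
    have hm : ∃ q ∈ Q', q ∈ Q := by
      refine ⟨q, hq, ?_⟩
      by_contra hqQ
      have hqv : q = v := by
        by_contra hqv
        exact hQi q2 hq2 q hqQ hqv hqs.symm
      rw [hqv] at hqs
      exact hA q2 hq2 hq21 hqs.symm
    obtain ⟨hvQ', hsub⟩ := meet q2 hq2 Q' hq2Q' hQ' hm
    obtain ⟨q3, hq3, hq31⟩ : ∃ q3 ∈ Q.erase q2, q3 ≠ q1 := by
      have h1 : 1 < (Q.erase q2).card := by
        rw [card_erase_of_mem hq2, hQ.card_eq]; omega
      exact exists_mem_ne h1 q1
    have hq3Q : q3 ∈ Q := mem_of_mem_erase hq3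
    have hq3v : q3 ≠ v := fun h => hvQ (h ▸ hq3Q)
    exact hA q3 hq3Q hq31 (hQ'.isClique (hsub hq3) hvQ' hq3v)

/-- The colouring theorem. -/
theorem exists_good {k : ℕ} (hk : 2 ≤ k) : ∀ (n : ℕ) (V : Type) [Fintype V] [DecidableEq V]
    (G : SimpleGraph V), Fintype.card V = n → G.CliqueFree (k + 2) → NoIso G k →
    ∃ c : V → Fin k, Good G c := by
  intro n
  induction n with
  | zero =>
    intro V _ _ G hn _ _
    have : IsEmpty V := Fintype.card_eq_zero_iff.1 hn
    exact ⟨fun v => (IsEmpty.false v).elim, fun a => (IsEmpty.false a).elim⟩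
  | succ n ih =>
    intro V _ _ G hn hcf hiso
    have hne : Nonempty V := Fintype.card_pos_iff.1 (by omega)
    obtain ⟨v, hv⟩ := exists_removable hk hcf hiso
    let G' : SimpleGraph {x : V // x ≠ v} := G.comap Subtype.val
    have hcard : Fintype.card {x : V // x ≠ v} = n := by
      rw [Fintype.card_subtype_compl, hn]
      simp
    have hmap : ∀ (m : ℕ) (Q : Finset {x : V // x ≠ v}), G'.IsNClique m Q →
        G.IsNClique m (Q.map (Embedding.subtype _)) := by
      intro m Q hQ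
      rw [SimpleGraph.isNClique_iff] at hQ ⊢
      refine ⟨?_, by rw [card_map]; exact hQ.2⟩
      intro a ha b hb hab
      simp only [coe_map, Embedding.subtype_apply, Set.mem_image, mem_coe] at ha hb
      obtain ⟨a', ha', rfl⟩ := ha
      obtain ⟨b', hb', rfl⟩ := hb
      exact hQ.1 ha' hb' (fun h => hab (by rw [h]))
    have hcf' : G'.CliqueFree (k + 2) := fun Q hQ => hcf _ (hmap _ Q hQ)
    have hiso' : NoIso G' k := by
      intro Q hQ
      obtain ⟨q, hq, s, hs, hsv, hqs⟩ := hv (Q.map (Embedding.subtype _)) (by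
        intro hmem
        simp only [mem_map, Embedding.subtype_apply] at hmem
        obtain ⟨a, _, ha⟩ := hmem
        exact a.2 ha) (hmap _ Q hQ)
      simp only [mem_map, Embedding.subtype_apply] at hq
      obtain ⟨q', hq', rfl⟩ := hq
      refine ⟨q', hq', ⟨s, hsv⟩, ?_, hqs⟩
      intro hmem
      apply hs
      rw [mem_map]
      exact ⟨⟨s, hsv⟩, hmem, rfl⟩
    obtain ⟨c, hc⟩ := ih _ G' hcard hcf' hiso'
    have hk0 : 0 < k := by omega
    apply extend hk hcf hiso (v := v) (c := fun x => if h : x ≠ v then c ⟨x, h⟩ else ⟨0, hk0⟩)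
    intro a b hav hbv hab hcab
    simp only [dif_pos hav, dif_pos hbv] at hcab
    obtain ⟨w, hw1, hw2⟩ := hc ⟨a, hav⟩ ⟨b, hbv⟩ hab hcab
    refine ⟨w.1, w.2, ?_, hw2⟩
    simp only [dif_pos hav, dif_pos w.2]
    exact hw1

end Pool.Agent.H763_lmd
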