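import Pool.Agent.H763_lmd.Twin

set_option autoImplicit false
set_option linter.unusedSectionVars false

namespace Pool.Agent.H763_lmd

open Finset Function

variable {V : Type*} [DecidableEq V]

theorem fin2_add_ne (j : Fin 2) : j + 1 ≠ j := by
  fin_cases j <;> decide

theorem fin2_eq_add {i j : Fin 2} (h : i ≠ j) : i = j + 1 := by
  revert h; fin_cases i <;> fin_cases j <;> simp

theorem fin2_add_add (j : Fin 2) : j + 1 + 1 = j := by
  fin_cases j <;> decide

variable {G : SimpleGraph V}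

theorem no_K4 (hcf : G.CliqueFree 4) {a b c d : V} (h1 : G.Adj a b) (h2 : G.Adj a c)
    (h3 : G.Adj a d) (h4 : G.Adj b c) (h5 : G.Adj b d) (h6 : G.Adj c d) : False := by
  refine hcf (insert a {b, c, d}) ?_
  apply SimpleGraph.IsNClique.insert
  · exact SimpleGraph.is3Clique_triple_iff.2 ⟨h4, h5, h6⟩
  · intro e he
    simp only [mem_insert, mem_singleton] at he
    rcases he with rfl | rfl | rfl
    · exact h1
    · exact h2
    · exact h3

section
variable {v : V} {c c' : V → Fin 2} {j i : Fin 2} {x x' y b : V}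

theorem F2 (hG : ∀ c' : V → Fin 2, ¬ Good G c') (hcf : G.CliqueFree 4) (h : GoodOff G v c)
    {p q : V} (hp : G.Adj v p) (hq : G.Adj v q) (hc : c p = c q) : ¬ G.Adj p q := by
  intro hpq
  obtain ⟨x, hx⟩ := exists_XX hG h (c p + 1)
  have h1 : G.Adj p x := hx.adj_of hp (fin2_add_ne _).symm
  have h2 : G.Adj q x := hx.adj_of hq (by rw [hc]; exact (fin2_add_ne _).symm)
  exact no_K4 hcf hp hq hx.1 hpq h1 h2

theorem pendant (hG : ∀ c' : V → Fin 2, ¬ Good G c') (hcf : G.CliqueFree 4) (h : GoodOff G v c)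
    (hx : XX G v c j x) (hb : XX G x (update c v j) (j + 1) b) {p : V}
    (hp : G.Adj v p) (hcp : c p = j) (hpb : G.Adj p b) : p = x := by
  by_contra hne
  have h1 := hb.2.2 p hne (by
    rw [update_of_ne hp.ne', hcp]; exact (fin2_add_ne j).symm)
  exact F2 hG hcf h hp hx.1 (hcp.trans hx.2.1.symm) (h1.2 hpb)

theorem can1 (hG : ∀ c' : V → Fin 2, ¬ Good G c') (hcf : G.CliqueFree 4) (h : GoodOff G v c)
    (h' : GoodOff G v c') (hx : XX G v c j x) (hx' : XX G v c' i x') (hi : c' x = i) :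
    x' = x := by
  obtain ⟨b, hb⟩ := exists_XX hG (h.move le_rfl hG hx) (j + 1)
  have hjne : j ≠ j + 1 := (fin2_add_ne j).symm
  have hvb : G.Adj v b := by
    have := hb.2.2 v hx.1.ne (by rw [update_self]; exact hjne)
    exact this.1 hx.1
  have hcb : c b = j + 1 := by
    have := hb.2.1
    rwa [update_of_ne hvb.ne'] at this
  have key : ∀ z, G.Adj v z → c z = j + 1 → c' z ≠ i := by
    intro z hz hcz hcon
    have hzx : G.Adj z x := hx.adj_of hz (by rw [hcz]; exact fin2_add_ne j)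
    exact F2 hG hcf h' hz hx.1 (hcon.trans hi.symm) hzx
  have hcx' : c x' = j := by
    by_contra hcon
    exact key x' hx'.1 (fin2_eq_add hcon) hx'.2.1
  have hbx' : G.Adj b x' := hx'.adj_of hvb (key b hvb hcb)
  exact pendant hG hcf h hx hb hx'.1 hcx' hbx'.symm

theorem can2 (hG : ∀ c' : V → Fin 2, ¬ Good G c') (hcf : G.CliqueFree 4) (h : GoodOff G v c)
    (h' : GoodOff G v c') (hx : XX G v c j x) (hy : XX G v c (j + 1) y)
    (hx' : XX G v c' i x') : x' = x ∨ x' = y := by
  by_cases hi : c' x = i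
  · exact Or.inl (can1 hG hcf h h' hx hx' hi)
  · right
    apply can1 hG hcf h h' hy hx'
    have hxy : G.Adj x y := hy.adj_of hx.1 (by rw [hx.2.1]; exact (fin2_add_ne j).symm)
    have hne : c' y ≠ c' x := by
      intro hcon
      exact F2 hG hcf h' hx.1 hy.1 hcon.symm hxy
    have h1 := fin2_eq_add hi
    have h2 := fin2_eq_add hne
    rw [h2, h1, fin2_add_add]

/-- The recolouring at the end. -/
theorem final_recolor (hG : ∀ c' : V → Fin 2, ¬ Good G c') (hcf : G.CliqueFree 4)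
    (h : GoodOff G v c) (hx : XX G v c j x) (hy : XX G v c (j + 1) y)
    (hb : XX G x (update c v j) (j + 1) b) (hby : b ≠ y) (hbny : ¬ G.Adj b y) :
    ∃ a a', G.Adj a a' ∧ c a = j ∧ c a' = j ∧ a ≠ v ∧ a' ≠ v ∧ G.Adj b a ∧
      ∀ w, w ≠ v → w ≠ b → c w ≠ j → (G.Adj w a ↔ G.Adj w a') := by
  by_contra hcon
  have hjne : j ≠ j + 1 := (fin2_add_ne j).symm
  have hvb : G.Adj v b := by
    have := hb.2.2 v hx.1.ne (by rw [update_self]; exact hjne)
    exact this.1 hx.1
  have hbv : b ≠ v := hvb.ne'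
  have hcb : c b = j + 1 := by
    have := hb.2.1
    rwa [update_of_ne hbv] at this
  have hyx : G.Adj x y := hy.adj_of hx.1 (by rw [hx.2.1]; exact hjne)
  set d : V → Fin 2 := update (update c v (j + 1)) b j with hd
  have db : d b = j := by simp [hd]
  have dv : d v = j + 1 := by rw [hd, update_of_ne hbv.symm, update_self]
  have dO : ∀ w, w ≠ b → w ≠ v → d w = c w := by
    intro w h1 h2
    rw [hd, update_of_ne h1, update_of_ne h2]
  have keyv : ∀ p, G.Adj v p → d p = j + 1 → ∃ w, d w ≠ j + 1 ∧ ¬ (G.Adj w v ↔ G.Adj w p) := by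
    intro p hvp hp
    have hpv : p ≠ v := hvp.ne'
    have hpb : p ≠ b := by
      rintro rfl
      rw [db] at hp
      exact hjne hp
    rw [dO p hpb hpv] at hp
    by_cases hX : XX G v c (j + 1) p
    · have hpy : p = y := XX.unique le_rfl hG h hX hy
      refine ⟨b, by rw [db]; exact hjne, ?_⟩
      rw [hpy]
      intro hiff
      exact hbny (hiff.1 hvb.symm)
    · have : ∃ w, w ≠ v ∧ c w ≠ j + 1 ∧ ¬ (G.Adj w v ↔ G.Adj w p) := by
        by_contra hcon'
        apply hX
        refine ⟨hvp, hp, ?_⟩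
        intro w hwv hcw
        by_contra hw
        exact hcon' ⟨w, hwv, hcw, hw⟩
      obtain ⟨w, hwv, hcw, hw⟩ := this
      have hwb : w ≠ b := by
        rintro rfl
        exact hcw hcb
      exact ⟨w, by rwa [dO w hwb hwv], hw⟩
  have keyb : ∀ p, G.Adj b p → d p = j → ∃ w, d w ≠ j ∧ ¬ (G.Adj w b ↔ G.Adj w p) := by
    intro p hbp hp
    have hpb : p ≠ b := hbp.ne'
    have hpv : p ≠ v := by
      rintro rfl
      rw [dv] at hp
      exact hjne hp.symm
    rw [dO p hpb hpv] at hp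
    by_cases hpx : p = x
    · subst hpx
      refine ⟨y, ?_, ?_⟩
      · rw [dO y hby.symm hy.1.ne', hy.2.1]; exact hjne.symm
      · intro hiff
        exact hbny (hiff.2 hyx.symm).symm
    · have h1 := hb.2.2 p hpx (by rw [update_of_ne hpv, hp]; exact hjne)
      have hpx' : G.Adj p x := h1.2 hbp.symm
      have hvp : ¬ G.Adj v p := by
        intro hvp
        exact F2 hG hcf h hvp hx.1 (hp.trans hx.2.1.symm) hpx'
      refine ⟨v, by rw [dv]; exact hjne.symm, ?_⟩
      intro hiff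
      exact hvp (hiff.1 hvb)
  apply hG d
  intro p q hpq hc
  by_cases hpv : p = v
  · subst hpv
    rw [dv] at hc ⊢
    exact keyv q hpq hc.symm
  by_cases hqv : q = v
  · subst hqv
    rw [dv] at hc
    obtain ⟨w, hw1, hw2⟩ := keyv p hpq.symm hc
    exact ⟨w, by rwa [hc], fun hiff => hw2 hiff.symm⟩
  by_cases hpb : p = b
  · subst hpb
    rw [db] at hc ⊢
    exact keyb q hpq hc.symm
  by_cases hqb : q = b
  · subst hqb
    rw [db] at hc
    obtain ⟨w, hw1, hw2⟩ := keyb p hpq.symm hc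
    exact ⟨w, by rwa [hc], fun hiff => hw2 hiff.symm⟩
  rw [dO p hpb hpv, dO q hqb hqv] at hc
  rw [dO p hpb hpv]
  by_cases hex : ∃ w, w ≠ v ∧ w ≠ b ∧ c w ≠ c p ∧ ¬ (G.Adj w p ↔ G.Adj w q)
  · obtain ⟨w, hwv, hwb, hw1, hw2⟩ := hex
    exact ⟨w, by rwa [dO w hwb hwv], hw2⟩
  · exfalso
    obtain ⟨w, hwv, hw1, hw2⟩ := h p q hpv hqv hpq hc
    have hwb : w = b := by
      by_contra hwb
      exact hex ⟨w, hwv, hwb, hw1, hw2⟩
    subst hwb
    have hcp : c p = j := by
      by_contra hcp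
      exact hw1 (hcb.trans (fin2_eq_add hcp).symm)
    have hall : ∀ u, u ≠ v → u ≠ w → c u ≠ j → (G.Adj u p ↔ G.Adj u q) := by
      intro u hu1 hu2 hu3
      by_contra hu
      exact hex ⟨u, hu1, hu2, by rwa [hcp], hu⟩
    by_cases hwp : G.Adj w p
    · exact hcon ⟨p, q, hpq, hcp, hc ▸ hcp, hpv, hqv, hwp, hall⟩
    · have hwq : G.Adj w q := by
        by_contra hwq
        exact hw2 ⟨fun h => absurd h hwp, fun h => absurd h hwq⟩
      exact hcon ⟨q, p, hpq.symm, hc ▸ hcp, hcp, hqv, hpv, hwq,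
        fun u h1 h2 h3 => (hall u h1 h2 h3).symm⟩

end

end Pool.Agent.H763_lmd
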