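import Pool.Agent.H763_lmd.Basic

set_option autoImplicit false
set_option linter.unusedSectionVars false

namespace Pool.Agent.H763_lmd

open Finset Function

variable {V : Type*} [DecidableEq V] {k : ℕ}

/-- `v` and `x` have the same neighbours apart from themselves. -/
def Tw (G : SimpleGraph V) (v x : V) : Prop := ∀ w, w ≠ v → w ≠ x → (G.Adj w v ↔ G.Adj w x)

/-- No isolated clique on `k + 1` vertices. -/
def NoIso (G : SimpleGraph V) (k : ℕ) : Prop :=
  ∀ Q : Finset V, G.IsNClique (k + 1) Q → ∃ q ∈ Q, ∃ s, s ∉ Q ∧ G.Adj q s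

variable {G : SimpleGraph V} {v b : V} {c : V → Fin k} {j l m : Fin k} {x : Fin k → V}

theorem x_inj (hx : ∀ j, XX G v c j (x j)) : Injective x := by
  intro a b hab
  have := congrArg c hab
  rwa [(hx a).2.1, (hx b).2.1] at this

theorem x_adj (hx : ∀ j, XX G v c j (x j)) {i j : Fin k} (hij : i ≠ j) : G.Adj (x i) (x j) :=
  (hx j).adj_of (hx i).1 (by rw [(hx i).2.1]; exact hij)

theorem clique_K (hx : ∀ j, XX G v c j (x j)) :
    G.IsNClique (k + 1) (insert v (univ.image x)) := by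
  apply SimpleGraph.IsNClique.insert
  · rw [SimpleGraph.isNClique_iff]
    constructor
    · intro a ha b hb hab
      simp only [coe_image, coe_univ, Set.image_univ, Set.mem_range] at ha hb
      obtain ⟨i, rfl⟩ := ha
      obtain ⟨i', rfl⟩ := hb
      exact x_adj hx (fun h => hab (by rw [h]))
    · rw [card_image_of_injective _ (x_inj hx)]
      simp
  · intro b hb
    simp only [mem_image, mem_univ, true_and] at hb
    obtain ⟨i, rfl⟩ := hb
    exact (hx i).1

theorem not_all_adj (hcf : G.CliqueFree (k + 2)) (hx : ∀ j, XX G v c j (x j))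
    (hbv : G.Adj b v) (hb : ∀ i, G.Adj b (x i)) : False := by
  refine hcf (insert b (insert v (univ.image x))) ?_
  apply SimpleGraph.IsNClique.insert (clique_K hx)
  intro a ha
  simp only [mem_insert, mem_image, mem_univ, true_and] at ha
  rcases ha with rfl | ⟨i, rfl⟩
  · exact hbv
  · exact hb i

theorem not_all_twin (hcf : G.CliqueFree (k + 2)) (hiso : NoIso G k)
    (hx : ∀ j, XX G v c j (x j)) : ∃ j, ¬ Tw G v (x j) := by
  by_contra hcon
  push Not at hcon
  obtain ⟨q, hq, s, hs, hqs⟩ := hiso _ (clique_K hx)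
  simp only [mem_insert, mem_image, mem_univ, true_and, not_or, not_exists] at hq hs
  have hsv : G.Adj s v := by
    rcases hq with rfl | ⟨i, rfl⟩
    · exact hqs.symm
    · exact (hcon i s hs.1 (fun h => hs.2 i h.symm)).2 hqs.symm
  exact not_all_adj hcf hx hsv (fun i => (hcon i s hs.1 (fun h => hs.2 i h.symm)).1 hsv)

theorem b_col (hb : XX G (x j) (update c v j) l b) (hjl : j ≠ l) : b ≠ v ∧ c b = l := by
  have hbv : b ≠ v := by
    rintro rfl
    have := hb.2.1
    rw [update_self] at this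
    exact hjl this
  refine ⟨hbv, ?_⟩
  have := hb.2.1
  rwa [update_of_ne hbv] at this

theorem b_adj_v (hx : ∀ j, XX G v c j (x j)) (hb : XX G (x j) (update c v j) l b) (hjl : j ≠ l) :
    G.Adj v b := by
  have := hb.2.2 v (hx j).1.ne (by rw [update_self]; exact hjl)
  exact this.1 (hx j).1

theorem b_adj_x (hx : ∀ j, XX G v c j (x j)) (hb : XX G (x j) (update c v j) l b) (hjl : j ≠ l)
    {i : Fin k} (hi : i ≠ l) : G.Adj b (x i) :=
  (hx i).adj_of (b_adj_v hx hb hjl) (by rw [(b_col hb hjl).2]; exact hi.symm)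

theorem b_ne (hx : ∀ j, XX G v c j (x j)) (hb : XX G (x j) (update c v j) l b) (hjl : j ≠ l)
    (ht : ¬ Tw G v (x j)) : b ≠ x l := by
  intro hbl
  apply ht
  intro w hwv hwx
  by_cases hcw : c w = j
  · have h1 := (hx l).2.2 w hwv (by rw [hcw]; exact hjl)
    have h2 := hb.2.2 w hwx (by rw [update_of_ne hwv, hcw]; exact hjl)
    rw [h1, h2, hbl]
  · exact (hx j).2.2 w hwv hcw

theorem b_not_adj (hcf : G.CliqueFree (k + 2)) (hx : ∀ j, XX G v c j (x j))
    (hb : XX G (x j) (update c v j) l b) (hjl : j ≠ l) : ¬ G.Adj b (x l) := by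
  intro hbl
  apply not_all_adj hcf hx (b_adj_v hx hb hjl).symm
  intro i
  by_cases hi : i = l
  · rw [hi]; exact hbl
  · exact b_adj_x hx hb hjl hi

theorem all_not_twin (hk : 2 ≤ k) (hG : ∀ c' : V → Fin k, ¬ Good G c') (h : GoodOff G v c)
    (hcf : G.CliqueFree (k + 2)) (hiso : NoIso G k)
    (hx : ∀ j, XX G v c j (x j)) (l : Fin k) : ¬ Tw G v (x l) := by
  obtain ⟨j, hj⟩ := not_all_twin hcf hiso hx
  by_cases hjl : j = l
  · rwa [← hjl]
  intro ht
  obtain ⟨b, hb⟩ := exists_XX hG (h.move hk hG (hx j)) l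
  have h1 := ht b (b_col hb hjl).1 (b_ne hx hb hjl hj)
  exact b_not_adj hcf hx hb hjl (h1.1 (b_adj_v hx hb hjl).symm)

/-- The case `k ≥ 3`. -/
theorem case_three (hk : 3 ≤ k) (hG : ∀ c' : V → Fin k, ¬ Good G c') (h : GoodOff G v c)
    (hcf : G.CliqueFree (k + 2)) (hiso : NoIso G k) : False := by
  have hk2 : 2 ≤ k := by omega
  choose x hx using fun j => exists_XX hG h j
  have hnt := all_not_twin hk2 hG h hcf hiso hx
  obtain ⟨j, l, m, hjl, hjm, hlm⟩ : ∃ j l m : Fin k, j ≠ l ∧ j ≠ m ∧ l ≠ m := by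
    refine ⟨⟨0, by omega⟩, ⟨1, by omega⟩, ⟨2, by omega⟩, ?_, ?_, ?_⟩ <;> simp
  obtain ⟨b, hb⟩ := exists_XX hG (h.move hk2 hG (hx j)) m
  obtain ⟨d, hd⟩ := exists_XX hG (h.move hk2 hG (hx l)) j
  -- `b ∈ S_m`, `d ∈ S_j`
  have hdne : d ≠ x j := b_ne hx hd hjl.symm (hnt l)
  have hdnadj : ¬ G.Adj d (x j) := b_not_adj hcf hx hd hjl.symm
  have h1 := hb.2.2 d hdne (by rw [update_of_ne (b_col hd hjl.symm).1, (b_col hd hjl.symm).2]; exact hjm)
  have hdb : ¬ G.Adj d b := fun h' => hdnadj (h1.2 h')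
  have hbl : G.Adj b (x l) := b_adj_x hx hb hjm hlm
  have h2 := hd.2.2 b hbl.ne (by rw [update_of_ne (b_col hb hjm).1, (b_col hb hjm).2]; exact hjm.symm)
  exact hdb (h2.1 hbl).symm

end Pool.Agent.H763_lmd
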