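import Pool.Agent.H763_lmd.Strip

set_option autoImplicit false
set_option linter.unusedSectionVars false

namespace Pool.Agent.H763_lmd

open Finset Function

variable {V : Type*} [DecidableEq V] {G : SimpleGraph V}

open Classical in
/-- the next hole -/
noncomputable def nx (G : SimpleGraph V) (v : V) (c : V → Fin 2) (j : Fin 2) : V :=
  if h : ∃ x, XX G v c j x then h.choose else v

theorem nx_spec (hG : ∀ c' : V → Fin 2, ¬ Good G c') {v : V} {c : V → Fin 2}
    (h : GoodOff G v c) (j : Fin 2) : XX G v c j (nx G v c j) := by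
  have := exists_XX hG h j
  rw [nx, dif_pos this]
  exact this.choose_spec

/-- one step of the walk -/
noncomputable def stp (G : SimpleGraph V) (s : V × (V → Fin 2) × Fin 2) :
    V × (V → Fin 2) × Fin 2 :=
  (nx G s.1 s.2.1 s.2.2, update s.2.1 s.1 s.2.2, s.2.2 + 1)

noncomputable def vt (G : SimpleGraph V) (s : V × (V → Fin 2) × Fin 2) (t : ℕ) : V :=
  ((stp G)^[t] s).1
noncomputable def ct (G : SimpleGraph V) (s : V × (V → Fin 2) × Fin 2) (t : ℕ) : V → Fin 2 :=
  ((stp G)^[t] s).2.1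
noncomputable def jt (G : SimpleGraph V) (s : V × (V → Fin 2) × Fin 2) (t : ℕ) : Fin 2 :=
  ((stp G)^[t] s).2.2

variable {s : V × (V → Fin 2) × Fin 2}

theorem vt_succ (t : ℕ) : vt G s (t + 1) = nx G (vt G s t) (ct G s t) (jt G s t) := by
  simp only [vt, ct, jt, iterate_succ', comp_apply, stp]

theorem ct_succ (t : ℕ) : ct G s (t + 1) = update (ct G s t) (vt G s t) (jt G s t) := by
  simp only [vt, ct, jt, iterate_succ', comp_apply, stp]

theorem jt_succ (t : ℕ) : jt G s (t + 1) = jt G s t + 1 := by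
  simp only [jt, iterate_succ', comp_apply, stp]

theorem jt_add_two (t : ℕ) : jt G s (t + 2) = jt G s t := by
  rw [show t + 2 = (t + 1) + 1 from rfl, jt_succ, jt_succ, fin2_add_add]

theorem jt_even (t : ℕ) : jt G s (2 * t) = jt G s 0 := by
  induction t with
  | zero => rfl
  | succ n ih => rw [show 2 * (n + 1) = 2 * n + 2 by ring, jt_add_two, ih]

theorem jt_odd (t : ℕ) : jt G s (2 * t + 1) = jt G s 0 + 1 := by
  rw [jt_succ, jt_even]

theorem good_t (hG : ∀ c' : V → Fin 2, ¬ Good G c') (h : GoodOff G s.1 s.2.1) (t : ℕ) :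
    GoodOff G (vt G s t) (ct G s t) := by
  induction t with
  | zero => exact h
  | succ n ih =>
    rw [vt_succ, ct_succ]
    exact ih.move le_rfl hG (nx_spec hG ih _)

theorem XX_fwd (hG : ∀ c' : V → Fin 2, ¬ Good G c') (h : GoodOff G s.1 s.2.1) (t : ℕ) :
    XX G (vt G s t) (ct G s t) (jt G s t) (vt G s (t + 1)) := by
  rw [vt_succ]
  exact nx_spec hG (good_t hG h t) _

theorem XX_bwd (hG : ∀ c' : V → Fin 2, ¬ Good G c') (h : GoodOff G s.1 s.2.1) (t : ℕ) :
    XX G (vt G s (t + 1)) (ct G s (t + 1)) (jt G s t) (vt G s t) := by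
  rw [ct_succ]
  exact (XX_fwd hG h t).move

theorem adj1 (hG : ∀ c' : V → Fin 2, ¬ Good G c') (h : GoodOff G s.1 s.2.1) (t : ℕ) :
    G.Adj (vt G s t) (vt G s (t + 1)) := (XX_fwd hG h t).1

theorem adj2 (hG : ∀ c' : V → Fin 2, ¬ Good G c') (h : GoodOff G s.1 s.2.1) (t : ℕ) :
    G.Adj (vt G s t) (vt G s (t + 2)) := by
  refine (XX_fwd hG h (t + 1)).adj_of (adj1 hG h t).symm ?_
  rw [(XX_bwd hG h t).2.1, jt_succ]
  exact (fin2_add_ne _).symm

/-- colours change only at visited vertices -/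
theorem ct_eq {t r : ℕ} (htr : t ≤ r) {z : V} (hz : ∀ i, t ≤ i → i < r → vt G s i ≠ z) :
    ct G s r z = ct G s t z := by
  induction r, htr using Nat.le_induction with
  | base => rfl
  | succ n hn ih =>
    rw [ct_succ, update_of_ne (hz n hn (Nat.lt_succ_self n)).symm]
    exact ih (fun i h1 h2 => hz i h1 (h2.trans (Nat.lt_succ_self n)))

theorem ct_left {t r : ℕ} (htr : t < r) (hz : ∀ i, t < i → i < r → vt G s i ≠ vt G s t) :
    ct G s r (vt G s t) = jt G s t := by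
  rw [ct_eq (t := t + 1) htr (fun i h1 h2 => hz i h1 h2), ct_succ, update_self]

/-- the first return -/
theorem exists_return (hG : ∀ c' : V → Fin 2, ¬ Good G c') (hcf : G.CliqueFree 4) [Finite V]
    (h : GoodOff G s.1 s.2.1) :
    ∃ L, 3 ≤ L ∧ vt G s L = vt G s 0 ∧ (∀ i r, i < r → r < L → vt G s i ≠ vt G s r) := by
  have hex : ∃ b, ∃ a, a < b ∧ vt G s a = vt G s b := by
    obtain ⟨a, b, hab, he⟩ := Finite.exists_ne_map_eq_of_infinite (vt G s)
    rcases lt_or_gt_of_ne hab with h1 | h1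
    · exact ⟨b, a, h1, he⟩
    · exact ⟨a, b, h1, he.symm⟩
  classical
  set L := Nat.find hex with hL
  obtain ⟨a, haL, haeq⟩ := Nat.find_spec hex
  have hmin : ∀ i r, i < r → r < L → vt G s i ≠ vt G s r := by
    intro i r hir hr heq
    exact Nat.find_min hex hr ⟨i, hir, heq⟩
  rw [← hL] at haL haeq
  have ne1 : ∀ t, vt G s t ≠ vt G s (t + 1) := fun t => (adj1 hG h t).ne
  have ne2 : ∀ t, vt G s t ≠ vt G s (t + 2) := fun t => (adj2 hG h t).ne
  have ha0 : a = 0 := by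
    by_contra ha
    obtain ⟨a', rfl⟩ : ∃ a', a = a' + 1 := ⟨a - 1, by omega⟩
    obtain ⟨L', hL'⟩ : ∃ L', L = L' + 1 := ⟨L - 1, by omega⟩
    rw [hL'] at haeq haL hmin
    have hg := good_t hG h (a' + 1)
    have hg' := good_t hG h (L' + 1)
    have hx := XX_bwd hG h a'
    have hy := XX_fwd hG h (a' + 1)
    rw [jt_succ] at hy
    have hx' := XX_bwd hG h L'
    rw [← haeq] at hg' hx'
    rcases can2 hG hcf hg hg' hx hy hx' with h1 | h1
    · exact hmin a' L' (by omega) (by omega) h1.symm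
    · by_cases h2 : a' + 1 + 1 = L'
      · rw [← h2] at haeq
        exact ne2 (a' + 1) haeq
      · by_cases h3 : a' + 1 + 1 < L'
        · exact hmin _ _ h3 (by omega) h1.symm
        · have h4 : a' + 1 = L' := by omega
          rw [← h4] at haeq
          exact ne1 (a' + 1) haeq
  subst ha0
  refine ⟨L, ?_, haeq.symm, hmin⟩
  by_contra hlt
  have h1 : L = 1 ∨ L = 2 := by omega
  rcases h1 with h1 | h1
  · rw [h1] at haeq; exact ne1 0 haeq
  · rw [h1] at haeq; exact ne2 0 haeq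

section ret
variable {L : ℕ}

theorem ret_parity (hG : ∀ c' : V → Fin 2, ¬ Good G c')
    (h : GoodOff G s.1 s.2.1) (hL : 3 ≤ L) (hret : vt G s L = vt G s 0)
    (hinj : ∀ i r, i < r → r < L → vt G s i ≠ vt G s r) : ∃ m, L = 2 * m + 1 := by
  obtain ⟨L', rfl⟩ : ∃ L', L = L' + 1 := ⟨L - 1, by omega⟩
  have h1 := (XX_fwd hG h L').2.1
  rw [hret] at h1
  have h2 : ct G s L' (vt G s 0) = jt G s 0 :=
    ct_left (by omega) (fun i hi1 hi2 => (hinj 0 i hi1 (by omega)).symm)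
  rw [h2] at h1
  rcases Nat.even_or_odd L' with ⟨m, hm⟩ | ⟨m, hm⟩
  · exact ⟨m, by omega⟩
  · exfalso
    rw [hm, jt_odd] at h1
    exact fin2_add_ne _ h1.symm

theorem ret_next (hG : ∀ c' : V → Fin 2, ¬ Good G c') (hcf : G.CliqueFree 4)
    (h : GoodOff G s.1 s.2.1) (hL : 3 ≤ L) (hret : vt G s L = vt G s 0)
    (hinj : ∀ i r, i < r → r < L → vt G s i ≠ vt G s r) : vt G s (L + 1) = vt G s 1 := by
  obtain ⟨m, hm⟩ := ret_parity hG h hL hret hinj
  have hg0 := good_t hG h 0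
  have hgL := good_t hG h L
  have hx := XX_fwd hG h 0
  have hx' := XX_fwd hG h L
  rw [hret] at hgL hx'
  refine can1 hG hcf hg0 hgL hx hx' ?_
  have h1 : ct G s L (vt G s 1) = jt G s 1 :=
    ct_left (by omega) (fun i hi1 hi2 => (hinj 1 i hi1 hi2).symm)
  rw [h1, hm, jt_odd, jt_succ]

theorem nbr (hG : ∀ c' : V → Fin 2, ¬ Good G c') (hcf : G.CliqueFree 4)
    (h : GoodOff G s.1 s.2.1) (hL : 3 ≤ L) (hret : vt G s L = vt G s 0)
    (hinj : ∀ i r, i < r → r < L → vt G s i ≠ vt G s r) {z : V} (hz : G.Adj (vt G s 0) z) :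
    ∃ i, z = vt G s i := by
  by_contra hcon
  push Not at hcon
  obtain ⟨m, hm⟩ := ret_parity hG h hL hret hinj
  have hcz : ct G s L z = ct G s 0 z := ct_eq (Nat.zero_le _) (fun i _ _ => (hcon i).symm)
  have hg0 := good_t hG h 0
  have hgL := good_t hG h L
  have hx := XX_fwd hG h 0
  have hx' := XX_fwd hG h L
  rw [hret, ret_next hG hcf h hL hret hinj] at hx'
  rw [hret] at hgL
  have hjL : jt G s L = jt G s 0 + 1 := by rw [hm, jt_odd]
  rw [hjL] at hx'
  by_cases hc : ct G s 0 z = jt G s 0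
  · have h1 : G.Adj z (vt G s 1) := hx'.adj_of hz (by
      rw [hcz, hc]; exact (fin2_add_ne _).symm)
    exact F2 hG hcf hg0 hz hx.1 (hc.trans hx.2.1.symm) h1
  · have h1 : G.Adj z (vt G s 1) := hx.adj_of hz hc
    have h2 : ct G s L z = ct G s L (vt G s 1) := by
      rw [hcz, hx'.2.1]
      exact fin2_eq_add hc
    exact F2 hG hcf hgL hz hx'.1 h2 h1

theorem periodic (hG : ∀ c' : V → Fin 2, ¬ Good G c') (hcf : G.CliqueFree 4)
    (h : GoodOff G s.1 s.2.1) (hL : 3 ≤ L) (hret : vt G s L = vt G s 0)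
    (hinj : ∀ i r, i < r → r < L → vt G s i ≠ vt G s r) (t : ℕ) :
    vt G s (t + L) = vt G s t ∧ vt G s (t + 1 + L) = vt G s (t + 1) := by
  induction t with
  | zero =>
    refine ⟨by rw [Nat.zero_add]; exact hret, ?_⟩
    rw [show 0 + 1 + L = L + 1 by ring]
    exact ret_next hG hcf h hL hret hinj
  | succ n ih =>
    refine ⟨ih.2, ?_⟩
    have hg := good_t hG h (n + 1)
    have hg' := good_t hG h (n + 1 + L)
    have hx := XX_bwd hG h n
    have hy := XX_fwd hG h (n + 1)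
    rw [jt_succ] at hy
    have hx' := XX_fwd hG h (n + 1 + L)
    rw [ih.2] at hg' hx'
    have he : vt G s (n + 1 + 1 + L) = vt G s (n + 1 + L + 1) := by
      congr 1; ring
    rw [he]
    rcases can2 hG hcf hg hg' hx hy hx' with h1 | h1
    · exfalso
      have h2 := (adj2 hG h (n + L)).ne
      rw [ih.1] at h2
      apply h2
      rw [← h1]
      congr 1; ring
    · exact h1

theorem in_range (hG : ∀ c' : V → Fin 2, ¬ Good G c') (hcf : G.CliqueFree 4)
    (h : GoodOff G s.1 s.2.1) (hL : 3 ≤ L) (hret : vt G s L = vt G s 0)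
    (hinj : ∀ i r, i < r → r < L → vt G s i ≠ vt G s r) (t : ℕ) :
    ∃ r, r < L ∧ vt G s t = vt G s r := by
  induction t using Nat.strong_induction_on with
  | _ t ih =>
    by_cases ht : t < L
    · exact ⟨t, ht, rfl⟩
    · obtain ⟨u, rfl⟩ : ∃ u, t = u + L := ⟨t - L, by omega⟩
      obtain ⟨r, hr, he⟩ := ih u (by omega)
      exact ⟨r, hr, ((periodic hG hcf h hL hret hinj u).1).trans he⟩

end ret

theorem vt_shift (t i : ℕ) : vt G ((stp G)^[t] s) i = vt G s (i + t) := by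
  simp only [vt, iterate_add_apply]

theorem closed (hG : ∀ c' : V → Fin 2, ¬ Good G c') (hcf : G.CliqueFree 4) [Finite V]
    (h : GoodOff G s.1 s.2.1) (t : ℕ) {z : V} (hz : G.Adj (vt G s t) z) :
    ∃ i, z = vt G s i := by
  have h' : GoodOff G ((stp G)^[t] s).1 ((stp G)^[t] s).2.1 := good_t hG h t
  obtain ⟨L, hL, hret, hinj⟩ := exists_return hG hcf h'
  have hz' : G.Adj (vt G ((stp G)^[t] s) 0) z := by
    rw [vt_shift, Nat.zero_add]; exact hz
  obtain ⟨i, hi⟩ := nbr hG hcf h' hL hret hinj hz'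
  exact ⟨i + t, by rw [hi, vt_shift]⟩

theorem case_two_K4 (hG : ∀ c' : V → Fin 2, ¬ Good G c') (hcf : G.CliqueFree 4)
    (h : GoodOff G s.1 s.2.1) {L m : ℕ} (hL : 3 ≤ L) (hm : L = 2 * m + 1)
    (hinj : ∀ i r, i < r → r < L → vt G s i ≠ vt G s r) {a b : ℕ} (hab : a < b)
    (ha : a % 2 = 1) (hb : b % 2 = 1) (hbL : b < L)
    (hadj : G.Adj (vt G s a) (vt G s b))
    (hall : ∀ w, w ≠ vt G s 0 → w ≠ vt G s 2 → ct G s 0 w ≠ jt G s 0 →
      (G.Adj w (vt G s a) ↔ G.Adj w (vt G s b))) : False := by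
  obtain ⟨b', rfl⟩ : ∃ b', b = b' + 1 := ⟨b - 1, by omega⟩
  have hjb' : jt G s b' = jt G s 0 := by
    obtain ⟨q, hq⟩ : ∃ q, b' = 2 * q := ⟨b' / 2, by omega⟩
    rw [hq, jt_even]
  have hja : jt G s a = jt G s 0 + 1 := by
    obtain ⟨q, hq⟩ : ∃ q, a = 2 * q + 1 := ⟨a / 2, by omega⟩
    rw [hq, jt_odd]
  have hb2L : b' + 2 < L := by omega
  -- (R)
  have h1 := (XX_bwd hG h b').2.2 (vt G s a) (hinj a (b' + 1) hab hbL) (by
    rw [ct_left hab (fun i hi1 hi2 => (hinj a i hi1 (by omega)).symm), hja, hjb']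
    exact fin2_add_ne _)
  have h2 : G.Adj (vt G s a) (vt G s b') := h1.1 hadj
  -- the vertex `b' + 2`
  have hc : ct G s 0 (vt G s (b' + 2)) = jt G s 0 + 1 := by
    have e1 := (XX_fwd hG h (b' + 1)).2.1
    rw [ct_eq (t := 0) (Nat.zero_le _)
      (fun i _ hi2 => hinj i (b' + 1 + 1) (by omega) (by omega))] at e1
    rw [show b' + 2 = b' + 1 + 1 from rfl, e1, jt_succ, hjb']
  have h3 := hall (vt G s (b' + 2)) (hinj 0 _ (by omega) hb2L).symm
    (hinj 2 _ (by omega) hb2L).symm (by rw [hc]; exact fin2_add_ne _)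
  have h4 : G.Adj (vt G s (b' + 2)) (vt G s a) := h3.2 (adj1 hG h (b' + 1)).symm
  exact no_K4 hcf h2 hadj h4.symm (adj1 hG h b') (adj2 hG h b') (adj1 hG h (b' + 1))

/-- The case `k = 2`. -/
theorem case_two (hG : ∀ c' : V → Fin 2, ¬ Good G c') (hcf : G.CliqueFree 4) [Finite V]
    (hiso : NoIso G 2) {v : V} {c : V → Fin 2} (h0 : GoodOff G v c) : False := by
  set s : V × (V → Fin 2) × Fin 2 := (v, c, 0) with hs
  have h : GoodOff G s.1 s.2.1 := h0
  obtain ⟨L, hL, hret, hinj⟩ := exists_return hG hcf h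
  obtain ⟨m, hm⟩ := ret_parity hG h hL hret hinj
  have hg0 := good_t hG h 0
  choose x hx using fun j => exists_XX hG hg0 j
  have hnt := all_not_twin le_rfl hG hg0 hcf hiso hx
  have hx1 : x (jt G s 0) = vt G s 1 := XX.unique le_rfl hG hg0 (hx _) (XX_fwd hG h 0)
  have hb0 := XX_fwd hG h 1
  rw [ct_succ, jt_succ, ← hx1] at hb0
  have hjne : jt G s 0 ≠ jt G s 0 + 1 := (fin2_add_ne _).symm
  have hb1 := b_ne hx hb0 hjne (hnt _)
  have hb2 := b_not_adj hcf hx hb0 hjne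
  obtain ⟨a, a', haa, hca, hca', hav, hav', hba, hall⟩ :=
    final_recolor hG hcf hg0 (hx _) (hx _) hb0 hb1 hb2
  obtain ⟨i, hi⟩ := closed hG hcf h 2 hba
  obtain ⟨i', hi'⟩ : ∃ i', a' = vt G s i' := by
    rw [hi] at haa
    exact closed hG hcf h i haa
  obtain ⟨r, hrL, hr⟩ := in_range hG hcf h hL hret hinj i
  obtain ⟨r', hrL', hr'⟩ := in_range hG hcf h hL hret hinj i'
  rw [hr] at hi
  rw [hr'] at hi'
  have hodd : ∀ q, q < L → vt G s q ≠ vt G s 0 → ct G s 0 (vt G s q) = jt G s 0 → q % 2 = 1 := by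
    intro q hq hne hc
    have hq0 : q ≠ 0 := by
      rintro rfl
      exact hne rfl
    obtain ⟨q', rfl⟩ : ∃ q', q = q' + 1 := ⟨q - 1, by omega⟩
    have e1 := (XX_fwd hG h q').2.1
    rw [ct_eq (t := 0) (Nat.zero_le _)
      (fun i _ hi2 => hinj i (q' + 1) (by omega) (by omega)), hc] at e1
    by_contra hodd
    obtain ⟨u, hu⟩ : ∃ u, q' = 2 * u + 1 := ⟨q' / 2, by omega⟩
    rw [hu, jt_odd] at e1
    exact hjne e1
  have ho : r % 2 = 1 := hodd r hrL (by rw [← hi]; exact hav) (by rw [← hi]; exact hca)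
  have ho' : r' % 2 = 1 := hodd r' hrL' (by rw [← hi']; exact hav') (by rw [← hi']; exact hca')
  rw [hi, hi'] at haa
  rw [hi, hi'] at hall
  rcases lt_trichotomy r r' with hlt | heq | hgt
  · exact case_two_K4 hG hcf h hL hm hinj hlt ho ho' hrL' haa hall
  · rw [heq] at haa
    exact G.loopless.irrefl _ haa
  · exact case_two_K4 hG hcf h hL hm hinj hgt ho' ho hrL haa.symm
      (fun w h1 h2 h3 => (hall w h1 h2 h3).symm)

end Pool.Agent.H763_lmd
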